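import Mathlib
import Pool.Agent.H536.OC.U5b
import Pool.Agent.H536.OC.SShift

/-!
# `p` prime, `p + h_0` a `P₃`, `p + h_1, ..., p + h_k` almost prime, for all large shifts and all moduli up to a power

For all `k` and `K` there are `δ > 0` and `R` such that for every large `X`, ALL nonzero `|h_0| ≤ X`, ALL `|h_i| ≤ X ^ K`, ALL
moduli `q ≤ X ^ δ` and ALL classes `a` modulo `q` such that the system has no local obstruction there are at least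
`X ^ 0.97` primes `p ≤ X`, `p ≡ a (mod q)`, for which `p + h_0` has at most three prime factors, all of them `> X ^ 0.11`,
and every `p + h_i` has at most `R` prime factors. Siegel zeros are allowed. For `k = 1` these are the triples.
-/

namespace Pool.Agent.Results.MP_1039f5_nt.AllShiftsAllModuli

theorem result (k K : ℕ) : ∃ (δ : ℝ) (R X0 : ℕ), 0 < δ ∧ ∀ X : ℕ, X0 ≤ X → ∀ (h0 : ℤ) (h : Fin k → ℤ), h0 ≠ 0 →
    |h0| ≤ X → (∀ i, |h i| ≤ X ^ K) → ∀ q a : ℕ, 1 ≤ q → (q : ℝ) ≤ (X : ℝ) ^ δ →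
    (∀ p : ℕ, p.Prime → ∃ n : ℤ, (p ∣ q → (p : ℤ) ∣ n - a) ∧ ¬ (p : ℤ) ∣ n ∧ ¬ (p : ℤ) ∣ n + h0 ∧
      ∀ i, ¬ (p : ℤ) ∣ n + h i) →
    ∃ S : Finset ℕ, (X : ℝ) ^ (97 / 100 : ℝ) ≤ S.card ∧
    ∀ p ∈ S, p.Prime ∧ p ≤ X ∧ p ≡ a [MOD q] ∧ (X : ℝ) ^ (97 / 100 : ℝ) ≤ p ∧ 1 < ((p : ℤ) + h0).natAbs ∧
      ArithmeticFunction.cardFactors ((p : ℤ) + h0).natAbs ≤ 3 ∧
      (∀ l : ℕ, l.Prime → l ∣ ((p : ℤ) + h0).natAbs → (X : ℝ) ^ (11 / 100 : ℝ) < l) ∧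
      ∀ i, (p : ℤ) + h i ≠ 0 ∧ ArithmeticFunction.cardFactors ((p : ℤ) + h i).natAbs ≤ R :=
  Pool.Agent.H536.OC.shiftT Pool.Agent.H536.OC.SPall k K

end Pool.Agent.Results.MP_1039f5_nt.AllShiftsAllModuli
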