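import Mathlib
import Pool.Agent.H534.RT.Tup

/-!
# Almost prime `k`-tuples, uniformly in the shifts up to a power of `x`, at all the places of every shape up
# to `x ^ (1 - δ)`

The tuples are `n, n + h_1, ..., n + h_s` (for the triples of the problem `s = 2`), where the shifts
`h_i ≤ x ^ (δ / 16)` are arbitrary, up to the necessary condition that no prime divides all the products;
the constants do not depend on the shifts.  For every shape `b_1, ..., b_k ≤ x ^ (1 - δ)` (no exceptions) and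
a positive proportion of the multiples `D = W d`, `d ≤ x ^ (δ / 8)`, of the product `W` of the primes up to
`(δ / 8) log x`, the tuples at all the places `n, n + D b_1, ..., n + D b_k` are simultaneously almost prime
tuples whose first member is a prime, for as many `n` as expected, up to a constant; the same is true inside
every set of such places of positive relative density, hence also for the prime tuples if there are as many
of them as expected; and for the tuples whose first members are strings of consecutive primes in windows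
which are longer than any constant.

Proof.  The relative multidimensional Szemerédi theorem for shapes of polynomial size (`Pool.Agent.H534.RS`),
in a form which is uniform in systems of polynomials with coefficients up to a power of `x`
(`Pool.Agent.H534.RT`), and the primes with almost prime companions of the library, uniform in the linear
forms (a sieve, and a Maynard-Tao theorem).
-/

set_option autoImplicit false

open Finset Filter

namespace Pool.Agent.Results.MP_1039f5_nt.EveryShapeOfTuples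

/-- `0, h_1, ..., h_s` is admissible: no prime divides `n (n + h_1) ... (n + h_s)` for all `n`. -/
def Admissible {s : ℕ} (h : Fin s → ℕ) : Prop := ∀ p : ℕ, p.Prime → ∃ n : ℕ, ¬ p ∣ n ∧ ∀ i, ¬ p ∣ n + h i

open Classical in
/-- the product of the `1 - ν(p) / p` over the primes `p ≤ z`, where `ν(p)` is the number of the residue
classes of `n` modulo `p` for which `p` divides `n (n + h_1) ... (n + h_s)` -/
noncomputable def V {s : ℕ} (h : Fin s → ℕ) (z : ℕ) : ℝ :=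
  ∏ p ∈ (Icc 1 z).filter Nat.Prime, (1 - (((range p).filter (fun n => p ∣ n ∨ ∃ i, p ∣ n + h i)).card : ℝ) / p)

/-- All prime factors of `n` are larger than `y`. -/
def Rough (y : ℝ) (n : ℕ) : Prop := ∀ q : ℕ, q.Prime → q ∣ n → y < (q : ℝ)

/-- the product of the primes up to `η log x` -/
noncomputable def W (η : ℝ) (x : ℕ) : ℕ := primorial ⌊η * Real.log x⌋₊

open Classical in
/-- the number of the `d ≤ x ^ (δ / 8)` such that at least `T` integers `n` in `(u, v]` have the property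
`P n (W d)` -/
noncomputable def dilates (δ : ℝ) (x u v : ℕ) (T : ℝ) (P : ℕ → ℕ → Prop) : ℕ :=
  ((Icc 1 ⌊(x : ℝ) ^ (δ / 8)⌋₊).filter (fun d =>
    T ≤ (((Ioc u v).filter (fun n => P n (W (δ / 8) x * d))).card : ℝ))).card

lemma le_dilates (δ : ℝ) (x u v : ℕ) (T : ℝ) (P : ℕ → ℕ → Prop) (D : Finset ℕ) (S : ℕ → Finset ℕ)
    (hD : ∀ d ∈ D, d ∈ Icc 1 ⌊(x : ℝ) ^ (δ / 8)⌋₊ ∧ T ≤ ((S d).card : ℝ))
    (hS : ∀ d ∈ D, ∀ n ∈ S d, u < n ∧ n ≤ v ∧ P n (W (δ / 8) x * d)) :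
    (D.card : ℝ) ≤ dilates δ x u v T P := by
  classical
  unfold dilates
  apply Nat.cast_le.2
  apply card_le_card
  intro d hd
  refine mem_filter.2 ⟨(hD d hd).1, (hD d hd).2.trans ?_⟩
  apply Nat.cast_le.2
  apply card_le_card
  intro n hn
  obtain ⟨h1, h2, h3⟩ := hS d hd n hn
  exact mem_filter.2 ⟨mem_Ioc.2 ⟨h1, h2⟩, h3⟩

/-- **All tuples, every shape.** Let `k ≥ 1` and `0 < δ ≤ 1`; the constants `c > 0` do not depend on the shape
and on the shifts `h_1, ..., h_s`.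
(1) For every admissible `h` with `h_i ≤ H ^ (δ / 16)`, every interval `(Y, Y + H]`, `Y ≤ H ^ E`, and every set
`A` of at least `κ H V(H)` integers `n` of it such that `n` and all `n + h_i` have no prime factor `≤ H ^ η`, and
for all distinct `1 ≤ b_1, ..., b_k ≤ H ^ (1 - δ)` there are at least `c H ^ (δ / 8)` integers
`d ≤ H ^ (δ / 8)` such that for `D = W d` at least `c H V(H) ^ (k + 1) / V((δ / 8) log H) ^ k` integers `n`
have `n` and all `n + D b_j` in `A`.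
(2) For large `r`, large `x` and all admissible `h` with `h_i ≤ x ^ (δ / 16)` this holds for the set of the
primes `p` of `(x, 2 x]` for which all `p + h_i` have at most `r` prime factors, all larger than
`x ^ (1 / r)`.
(3) For every `m` there are `η > 0`, `B` and `K` such that for large `x`, all admissible `h` with distinct
`1 ≤ h_i ≤ x ^ (δ / 16)` and all `K ≤ L ≤ log x / (log log x) ^ 2` such that `L ≤ C₀` or no `h_i` lies in
`(C₀, L]`, there is a set `P` of at least `m` of the integers `1, ..., K` such that for all distinct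
`1 ≤ b_1, ..., b_k ≤ x ^ (1 - δ)` at least `c x ^ (δ / 8)` of the `d ≤ x ^ (δ / 8)` are such that for `D = W d`
and at least `c x / (log x) ^ (B (k + 1))` integers `n` in `(x / 2, 3 x / 2]` the following holds for each of
the `k + 1` integers `n' = n, n + D b_1, ..., n + D b_k`: the primes in `(n', n' + L]` are the integers
`p = n' + t`, `t ∈ P`, and all prime factors of the numbers `p + h_i` are larger than `x ^ η`. -/
theorem result (s : ℕ) :
    (∀ (k E : ℕ) (δ η κ : ℝ), 1 ≤ k → 1 ≤ E → 0 < δ → δ ≤ 1 → 0 < η → 0 < κ → ∃ c : ℝ, 0 < c ∧ ∃ H₀ : ℕ,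
      ∀ (H Y : ℕ) (h : Fin s → ℕ) (A : Finset ℕ), H₀ ≤ H → Admissible h →
      (∀ i, (h i : ℝ) ≤ (H : ℝ) ^ (δ / 16)) → Y ≤ H ^ E → A ⊆ Ioc Y (Y + H) →
      (∀ n ∈ A, ∀ p : ℕ, p.Prime → (p : ℝ) ≤ (H : ℝ) ^ η → ¬ p ∣ n ∧ ∀ i, ¬ p ∣ n + h i) →
      κ * (H * V h H) ≤ A.card →
      ∀ b : Fin k → ℕ, Function.Injective b → (∀ j, 1 ≤ b j ∧ (b j : ℝ) ≤ (H : ℝ) ^ (1 - δ)) →
      c * (H : ℝ) ^ (δ / 8) ≤ dilates δ H Y (Y + H)
        (c * (H * (V h H ^ (k + 1) / V h ⌊δ / 8 * Real.log H⌋₊ ^ k)))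
        (fun n D => n ∈ A ∧ ∀ j, n + D * b j ∈ A)) ∧
    (∃ r₀ : ℕ, 2 ≤ r₀ ∧ ∀ r : ℕ, r₀ ≤ r → ∀ (k : ℕ) (δ : ℝ), 1 ≤ k → 0 < δ → δ ≤ 1 →
      ∃ c : ℝ, 0 < c ∧ ∀ᶠ x : ℕ in atTop, ∀ h : Fin s → ℕ, Admissible h →
      (∀ i, (h i : ℝ) ≤ (x : ℝ) ^ (δ / 16)) →
      ∀ b : Fin k → ℕ, Function.Injective b → (∀ j, 1 ≤ b j ∧ (b j : ℝ) ≤ (x : ℝ) ^ (1 - δ)) →
      c * (x : ℝ) ^ (δ / 8) ≤ dilates δ x x (2 * x)
        (c * (x * (V h x ^ (k + 1) / V h ⌊δ / 8 * Real.log x⌋₊ ^ k)))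
        (fun n D => ∀ u : ℕ, (u = 0 ∨ ∃ j, u = b j) → n + D * u ≤ 2 * x ∧ (n + D * u).Prime ∧
          ∀ i, (n + D * u + h i).primeFactorsList.length ≤ r ∧
            Rough ((x : ℝ) ^ (1 / (r : ℝ))) (n + D * u + h i))) ∧
    (∀ m : ℕ, ∃ η : ℝ, 0 < η ∧ ∃ B K : ℕ, ∀ (k C₀ : ℕ) (δ : ℝ), 1 ≤ k → 0 < δ → δ ≤ 1 →
      ∃ c : ℝ, 0 < c ∧ ∃ x₀ : ℕ, ∀ x : ℕ, x₀ ≤ x → ∀ (h : Fin s → ℕ) (L : ℕ), Admissible h →
      Function.Injective h → (∀ i, 1 ≤ h i) → (∀ i, (h i : ℝ) ≤ (x : ℝ) ^ (δ / 16)) →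
      K ≤ L → (L : ℝ) ≤ Real.log x / Real.log (Real.log x) ^ 2 → (L ≤ C₀ ∨ ∀ i, h i ≤ C₀ ∨ L < h i) →
      ∃ P : Finset ℕ, P ⊆ Icc 1 K ∧ m ≤ P.card ∧
      ∀ b : Fin k → ℕ, Function.Injective b → (∀ j, 1 ≤ b j ∧ (b j : ℝ) ≤ (x : ℝ) ^ (1 - δ)) →
      c * (x : ℝ) ^ (δ / 8) ≤ dilates δ x (x / 2) (x / 2 + x) (c * (x / Real.log x ^ (B * (k + 1))))
        (fun n D => ∀ u : ℕ, (u = 0 ∨ ∃ j, u = b j) → n + D * u ≤ x / 2 + x ∧
          (∀ t : ℕ, 1 ≤ t → t ≤ L → ((n + D * u + t).Prime ↔ t ∈ P)) ∧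
          ∀ t ∈ P, (n + D * u + t).Prime ∧ ∀ i, Rough ((x : ℝ) ^ η) (n + D * u + t + h i))) := by
  classical
  refine ⟨fun k E δ η κ hk hE hδ hδ1 hη hκ => ?_, ?_, fun m => ?_⟩
  · obtain ⟨c, hc, H₀, hm⟩ := Pool.Agent.H534.RT.tupA s E k δ η κ hk hE hδ hδ1 hη hκ
    refine ⟨c, hc, H₀, fun H Y h A hH hadm hh hY hA hAr hAc b hb hb' => ?_⟩
    refine (hm H Y h A hH hadm hh hY hA hAr hAc b hb (fun i => (hb' i).1) (fun i => (hb' i).2)).trans ?_
    refine le_dilates _ _ _ _ _ _ _ (fun d => A.filter (fun n => ∀ i, n + W (δ / 8) H * d * b i ∈ A))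
      (fun d hd => mem_filter.1 hd) (fun d hd n hn => ?_)
    have hn' := mem_filter.1 hn
    have h1 := mem_Ioc.1 (hA hn'.1)
    exact ⟨h1.1, h1.2, hn'.1, hn'.2⟩
  · obtain ⟨r₀, hr₀, hm⟩ := Pool.Agent.H534.RT.tupB s
    refine ⟨r₀, hr₀, fun r hr k δ hk hδ hδ1 => ?_⟩
    obtain ⟨c, hc, h1⟩ := hm r hr k δ hk hδ hδ1
    refine ⟨c, hc, ?_⟩
    filter_upwards [h1, eventually_ge_atTop 2, Pool.Agent.H534.RT.len_ev3 r (by omega)]
      with x h2 hx2 h3 h hadm hh b hb hb'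
    refine (h2 h hadm hh b hb (fun i => (hb' i).1) (fun i => (hb' i).2)).trans ?_
    refine le_dilates _ _ _ _ _ _ _ (fun d => (Pool.Agent.H534.RT.TP h x r).filter (fun n =>
      ∀ i, n + W (δ / 8) x * d * b i ∈ Pool.Agent.H534.RT.TP h x r))
      (fun d hd => mem_filter.1 hd) (fun d hd n hn => ?_)
    have hn' := mem_filter.1 hn
    have hxr : (1 : ℝ) ≤ x := by exact_mod_cast (by omega : 1 ≤ x)
    have hhx : ∀ i, h i ≤ x := by
      intro i
      have h4 : (h i : ℝ) ≤ x := by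
        refine (hh i).trans ?_
        nth_rewrite 2 [← Real.rpow_one (x : ℝ)]
        apply Real.rpow_le_rpow_of_exponent_le hxr
        linarith
      exact_mod_cast h4
    have hgp : ∀ y ∈ Pool.Agent.H534.RT.TP h x r, x < y ∧ y ≤ 2 * x ∧ y.Prime ∧
        ∀ i, (y + h i).primeFactorsList.length ≤ r ∧ Rough ((x : ℝ) ^ (1 / (r : ℝ))) (y + h i) := by
      intro y hy
      unfold Pool.Agent.H534.RT.TP at hy
      rw [mem_filter, mem_Ioc] at hy
      refine ⟨hy.1.1, hy.1.2, hy.2.1, fun i => ⟨h3 (y + h i) (by omega) ?_ (hy.2.2 i), hy.2.2 i⟩⟩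
      have := hhx i
      omega
    obtain ⟨g1, g2, -⟩ := hgp n hn'.1
    refine ⟨g1, g2, fun u hu => ?_⟩
    have hmem : n + W (δ / 8) x * d * u ∈ Pool.Agent.H534.RT.TP h x r := by
      rcases hu with rfl | ⟨i, rfl⟩
      · simpa using hn'.1
      · exact hn'.2 i
    exact (hgp _ hmem).2
  · obtain ⟨η, hη, B, K, hm⟩ := Pool.Agent.H534.RT.tupC m s
    refine ⟨η, hη, B, K, fun k C₀ δ hk hδ hδ1 => ?_⟩
    obtain ⟨c, hc, x₀, h1⟩ := hm k C₀ δ hk hδ hδ1
    refine ⟨c, hc, x₀, fun x hx h L hadm hinj hpos hh hKL hL hLC => ?_⟩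
    obtain ⟨P, hP1, hP2, h2⟩ := h1 x hx h L hadm hinj hpos hh hKL hL hLC
    refine ⟨P, hP1, hP2, fun b hb hb' => ?_⟩
    refine (h2 b hb (fun i => (hb' i).1) (fun i => (hb' i).2)).trans ?_
    refine le_dilates _ _ _ _ _ _ _ _ (fun d hd => mem_filter.1 hd) (fun d hd n hn => ?_)
    have hn' := mem_filter.1 hn
    have h3 := mem_Ioc.1 hn'.1
    exact ⟨h3.1, h3.2, hn'.2⟩

end Pool.Agent.Results.MP_1039f5_nt.EveryShapeOfTuples
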