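import Mathlib
import Pool.Agent.H528.LioT
import Pool.Agent.H528.MassT

set_option autoImplicit false

/-!
# Liouville and Möbius values along almost prime tuples, and arbitrary weights

Let `Λ₂` be the function of Selberg and Bombieri, which counts the primes together with the products of two primes. For
every `k` and `ε` there is a `δ < 1` such that for EVERY set `A` of shifts in `[1, N]` all but `C(|A|, k - 1) N ^ δ` of
the `k`-element sets `H` of shifts from `A` have the following properties; the sums run over the `n ≤ N` such that the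
`n + h`, `h ∈ H`, have no prime factor below `N ^ ξ`, `ξ ≤ ε`.

* `∑ f(n) ∏_{h ∈ H} Λ₂(n + h)` is given, up to `ε`, by the sieve, for ARBITRARY weights `|f| ≤ 1` (the set of exceptions
  depends on `f`).
* If `H` is admissible, `∑ ∏_{h ∈ H} Λ₂(n + h) = (2 ^ k + O(ε)) 𝔖(H) N (log N) ^ k`.
* If `H` is admissible, `|∑ λ(a n + b) ∏_{d ∈ D} μ²(a n + d) ∏_{h ∈ H} Λ₂(n + h)| ≤ ε 𝔖(H) N (log N) ^ k`, for the
  Liouville function of any linear form `a n + b` and the squarefree indicators of several forms `a n + d`, also for the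
  Möbius function of the form.
-/

namespace Pool.Agent.Results.MP_1039f5_nt.LiouvilleInSparseTuples

open Finset Filter
open Pool.Agent.H387R2.Uni

/-- the function `Λ₂(m) = ∑_{d ∣ m} μ(d) log² (m / d)` -/
noncomputable def Lambda2 (m : ℕ) : ℝ :=
  ∑ d ∈ m.divisors, (ArithmeticFunction.moebius d : ℝ) * Real.log ((m : ℝ) / d) ^ 2

/-- the Liouville function of an integer -/
noncomputable def liouville (m : ℤ) : ℝ := (ArithmeticFunction.liouville m.natAbs : ℝ)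

/-- the Möbius function of an integer -/
noncomputable def moebius (m : ℤ) : ℝ := (ArithmeticFunction.moebius m.natAbs : ℝ)

open Classical in
/-- the sum of `f(n) ∏_{h ∈ H} Λ₂(n + h)` over the `n ≤ N` such that all prime factors of all the numbers `n + h`,
`h ∈ H`, are at least `N ^ ξ` -/
noncomputable def tupleSum (f : ℕ → ℝ) (H : Finset ℕ) (ξ : ℝ) (N : ℕ) : ℝ :=
  ∑ n ∈ (Icc 1 N).filter (fun n => ∀ h ∈ H, ∀ q : ℕ, q.Prime → q ∣ n + h → (N : ℝ) ^ ξ ≤ q),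
    f n * ∏ h ∈ H, Lambda2 (n + h)

open Classical in
/-- the sum of `f(n)` over the `n ≤ N` such that no `n + h`, `h ∈ H`, has a prime factor `≤ y` -/
noncomputable def roughSum (f : ℕ → ℝ) (H : Finset ℕ) (y N : ℕ) : ℝ :=
  ∑ n ∈ (Icc 1 N).filter (fun n => ∀ h ∈ H, ∀ q : ℕ, q.Prime → q ≤ y → ¬ q ∣ n + h), f n

/-- `∏_{p ≤ y} (1 - 1 / p)` -/
noncomputable def eulerProd (y : ℕ) : ℝ := ∏ p ∈ (Icc 1 y).filter Nat.Prime, (1 - 1 / (p : ℝ))

open Pool.Agent.Y822 Pool.Agent.Y822.Par3 Pool.Agent.H528.Lam Pool.Agent.H528.AsyL Pool.Agent.H528.Gen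
open Pool.Agent.H528.Lio
open Pool.Agent.H373R2.T7 (Vz)
open Pool.Agent.H530.Ha (lz mz mz_abs)

lemma ro_iff' {ξ : ℝ} {N m : ℕ} (hN : 1 ≤ N) :
    (∀ q : ℕ, q.Prime → q ∣ m → (N : ℝ) ^ ξ ≤ q) ↔ Ro (zN ξ N) m := by
  constructor
  · intro h1 q hq hqz hqd
    have h3 := zN_lt' (ε₁ := ξ) hN (h1 q hq hqd)
    omega
  · intro h1 q hq hqd
    by_contra h2
    push Not at h2
    exact h1 q hq (le_zN h2) hqd

lemma tupleSum_eq (f : ℕ → ℝ) (H : Finset ℕ) (ξ : ℝ) (N : ℕ) (hN : 1 ≤ N) : tupleSum f H ξ N = SE f (zN ξ N) N H := by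
  classical
  unfold tupleSum SE
  rw [sum_filter]
  refine sum_congr rfl fun n _ => ?_
  by_cases hr : ∀ h ∈ H, Ro (zN ξ N) (n + h)
  · rw [if_pos fun h hh => (ro_iff' hN).2 (hr h hh)]
    congr 1
    refine prod_congr rfl fun h hh => ?_
    rw [Pool.Agent.H528.Avg.ro_of (hr h hh), one_mul]
    rfl
  · rw [if_neg fun h => hr fun t ht => (ro_iff' hN).1 (h t ht)]
    push Not at hr
    obtain ⟨h, hh, h2⟩ := hr
    have h3 : ∏ h ∈ H, (ro (zN ξ N) (n + h) * L2 (n + h)) = 0 := by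
      refine prod_eq_zero hh ?_
      have : ro (zN ξ N) (n + h) = 0 := by unfold ro; rw [if_neg h2]
      rw [this, zero_mul]
    rw [h3, mul_zero]

lemma roughSum_eq (f : ℕ → ℝ) (H : Finset ℕ) (y N : ℕ) : roughSum f H y N = RE f y N H := by
  classical
  unfold roughSum RE
  rw [sum_filter]
  refine sum_congr rfl fun n _ => ?_
  by_cases hr : ∀ h ∈ H, Ro y (n + h)
  · have hr' : ∀ h ∈ H, ∀ q : ℕ, q.Prime → q ≤ y → ¬ q ∣ n + h := fun h hh => hr h hh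
    rw [if_pos hr', prod_eq_one fun h hh => Pool.Agent.H528.Avg.ro_of (hr h hh), mul_one]
  · have hr' : ¬ ∀ h ∈ H, ∀ q : ℕ, q.Prime → q ≤ y → ¬ q ∣ n + h := fun h => hr fun t ht => h t ht
    rw [if_neg hr']
    push Not at hr
    obtain ⟨h, hh, h2⟩ := hr
    have h3 : ∏ h ∈ H, ro y (n + h) = 0 := by
      refine prod_eq_zero hh ?_
      unfold ro
      rw [if_neg h2]
    rw [h3, mul_zero]

lemma eulerProd_eq (y : ℕ) : eulerProd y = Vz y := by
  unfold eulerProd Vz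
  rfl

lemma liouville_eq (m : ℤ) : liouville m = lz m := by
  unfold liouville lz
  rcases Nat.eq_zero_or_pos m.natAbs with h | h
  · rw [h, Pool.Agent.H530.Ha.la_zero]
    simp
  · rw [ArithmeticFunction.liouville_apply h.ne', Pool.Agent.H530.Ha.la_eq h.ne']
    push_cast
    rfl

lemma moebius_eq (m : ℤ) : moebius m = mz m := rfl

lemma mz_mul (m : ℤ) : mz m = lz m * mz m ^ 2 := by
  by_cases h : ∀ p : ℕ, p.Prime → ¬ ((p ^ 2 : ℕ) : ℤ) ∣ m
  · rw [mz_sq_of h, mul_one, Pool.Agent.H530.Ha.mz_eq_lz h]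
  · push Not at h
    obtain ⟨p, hp, hd⟩ := h
    rw [Pool.Agent.H530.Ha.mz_eq_zero hp hd]
    simp

open Classical in
/-- the Möbius function as the Liouville function times a squarefree indicator -/
lemma mz_prod (a n : ℕ) (b : ℤ) (D : Finset ℤ) :
    mz (a * n + b) * ∏ d ∈ D, mz (a * n + d) ^ 2 = lz (a * n + b) * ∏ d ∈ insert b D, mz (a * n + d) ^ 2 := by
  by_cases hb : b ∈ D
  · rw [insert_eq_of_mem hb]
    rcases mz_sq (a * n + b) with h | h
    · have h1 : ∏ d ∈ D, mz (a * n + d) ^ 2 = 0 := prod_eq_zero hb h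
      rw [h1, mul_zero, mul_zero]
    · rw [mz_mul (a * n + b), h, mul_one]
  · rw [prod_insert hb, ← mul_assoc, ← mz_mul]

open Classical in
theorem result :
    -- the constants are convergent products, positive for admissible sets
    (∀ H : Finset ℕ, HasProd (fun p : Nat.Primes => locT H p) (CT H) ∧ (Adm H → 0 < CT H)) ∧
    -- the values of `Λ₂`
    ((∀ p : ℕ, p.Prime → Lambda2 p = Real.log p ^ 2) ∧
      (∀ p q : ℕ, p.Prime → q.Prime → p ≠ q → Lambda2 (p * q) = 2 * Real.log p * Real.log q) ∧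
      (∀ m : ℕ, 3 ≤ m.primeFactors.card → Lambda2 m = 0)) ∧
    -- arbitrary weights
    (∀ k : ℕ, 1 ≤ k → ∀ U : ℕ, ∀ ε : ℝ, 0 < ε → ∃ δ ξ κ : ℝ, 0 < δ ∧ δ < 1 ∧ 0 < ξ ∧ ξ ≤ ε ∧ 0 < κ ∧
      ∃ N₀ : ℕ, ∀ N : ℕ, N₀ ≤ N → ∀ f : ℕ → ℝ, (∀ n, |f n| ≤ 1) → ∀ A : Finset ℕ, (∀ a ∈ A, 1 ≤ a ∧ a ≤ N) →
        (((A.powersetCard k).filter (fun H =>
          ε * ((2 * Real.log N / eulerProd ⌊Real.exp (κ * Real.log N / Real.log (Real.log N))⌋₊) ^ k *
            roughSum (fun _ => 1) H ⌊Real.exp (κ * Real.log N / Real.log (Real.log N))⌋₊ N) + N / Real.log N ^ U <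
          |tupleSum f H ξ N -
            (2 * Real.log N / eulerProd ⌊Real.exp (κ * Real.log N / Real.log (Real.log N))⌋₊) ^ k *
              roughSum f H ⌊Real.exp (κ * Real.log N / Real.log (Real.log N))⌋₊ N|)).card : ℝ) ≤
          A.card.choose (k - 1) * (N : ℝ) ^ δ) ∧
    -- the total mass
    (∀ k : ℕ, 1 ≤ k → ∀ ε : ℝ, 0 < ε → ∃ δ ξ : ℝ, 0 < δ ∧ δ < 1 ∧ 0 < ξ ∧ ξ ≤ ε ∧
      ∃ N₀ : ℕ, ∀ N : ℕ, N₀ ≤ N → ∀ A : Finset ℕ, (∀ a ∈ A, 1 ≤ a ∧ a ≤ N) →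
        (((A.powersetCard k).filter (fun H => Adm H ∧ ε * CT H * (N * Real.log N ^ k) <
          |tupleSum (fun _ => 1) H ξ N - 2 ^ k * CT H * (N * Real.log N ^ k)|)).card : ℝ) ≤
          A.card.choose (k - 1) * (N : ℝ) ^ δ) ∧
    -- the Liouville and the Möbius function and several squarefree conditions
    ∀ k : ℕ, 1 ≤ k → ∀ s B : ℕ, ∀ ε : ℝ, 0 < ε → ∃ δ ξ : ℝ, 0 < δ ∧ δ < 1 ∧ 0 < ξ ∧ ξ ≤ ε ∧
      ∃ N₀ : ℕ, ∀ N : ℕ, N₀ ≤ N → ∀ (a : ℕ) (b : ℤ), 1 ≤ a → (a : ℝ) ≤ Real.log N ^ B → |(b : ℝ)| ≤ N * Real.log N ^ B →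
        ∀ D : Finset ℤ, D.card ≤ s → (∀ d ∈ D, IsCoprime (a : ℤ) d ∧ |(d : ℝ)| ≤ N * Real.log N ^ B) →
        ∀ A : Finset ℕ, (∀ a ∈ A, 1 ≤ a ∧ a ≤ N) →
          (((A.powersetCard k).filter (fun H => Adm H ∧ ε * CT H * (N * Real.log N ^ k) <
            |tupleSum (fun n => liouville (a * n + b) * ∏ d ∈ D, moebius (a * n + d) ^ 2) H ξ N|)).card : ℝ) ≤
            A.card.choose (k - 1) * (N : ℝ) ^ δ ∧
          (IsCoprime (a : ℤ) b →
            (((A.powersetCard k).filter (fun H => Adm H ∧ ε * CT H * (N * Real.log N ^ k) <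
              |tupleSum (fun n => moebius (a * n + b) * ∏ d ∈ D, moebius (a * n + d) ^ 2) H ξ N|)).card : ℝ) ≤
              A.card.choose (k - 1) * (N : ℝ) ^ δ) := by
  have habs : ∀ (δ : ℝ) (B : ℕ), δ < 1 → ∃ N₁ : ℕ, ∀ N : ℕ, N₁ ≤ N → ∀ X : ℝ, 0 ≤ X →
      2 * (X * ((N : ℝ) ^ δ * Real.log N ^ B)) ≤ X * (N : ℝ) ^ ((1 + δ) / 2) := by
    intro δ B hδ
    have e2 := ev_logN (ev_pow_exp B ((1 - δ) / 2) 2 (by linarith))
    obtain ⟨N₀, hN₀⟩ := eventually_atTop.1 e2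
    refine ⟨max N₀ 1, fun N hN X hX => ?_⟩
    have h2 := hN₀ N ((le_max_left _ _).trans hN)
    have hN1 : 1 ≤ N := (le_max_right _ _).trans hN
    have hN0 : (0 : ℝ) < N := by exact_mod_cast hN1
    have e3 : (N : ℝ) ^ ((1 + δ) / 2) = (N : ℝ) ^ δ * Real.exp ((1 - δ) / 2 * Real.log N) := by
      rw [mul_comm ((1 - δ) / 2), ← Real.rpow_def_of_pos hN0, ← Real.rpow_add hN0]
      congr 1
      ring
    rw [e3]
    calc 2 * (X * ((N : ℝ) ^ δ * Real.log N ^ B)) = X * ((N : ℝ) ^ δ * (2 * Real.log N ^ B)) := by ring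
      _ ≤ _ := by gcongr
  have habs1 : ∀ (δ : ℝ) (B : ℕ), δ < 1 → ∃ N₁ : ℕ, ∀ N : ℕ, N₁ ≤ N → ∀ X : ℝ, 0 ≤ X →
      X * ((N : ℝ) ^ δ * Real.log N ^ B) ≤ X * (N : ℝ) ^ ((1 + δ) / 2) := by
    intro δ B hδ
    obtain ⟨N₁, hN₁⟩ := habs δ B hδ
    refine ⟨max N₁ 1, fun N hN X hX => ?_⟩
    have h1 := hN₁ N ((le_max_left _ _).trans hN) X hX
    have hN1 : (1 : ℝ) ≤ N := by exact_mod_cast (le_max_right _ _).trans hN
    have h2 : 0 ≤ X * ((N : ℝ) ^ δ * Real.log N ^ B) := by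
      have := Real.log_nonneg hN1
      positivity
    linarith
  refine ⟨fun E => ⟨CT_hasProd _, fun hA => ?_⟩, ⟨fun p hp => ?_, fun p q hp hq hpq => ?_, fun m hm => ?_⟩,
    fun k hk U ε hε => ?_, fun k hk ε hε => ?_, fun k hk s B ε hε => ?_⟩
  · rw [← CT_en]
    apply Pool.Agent.H386R2.HL.singularSeries_pos (en_inj _)
    intro p hp
    rw [nu_en]
    exact hA p hp
  · have h1 : Lambda2 p = L2 p := rfl
    rw [h1, L2_one_pf hp.one_lt.le hp.primeFactors]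
    ring
  · have h1 : Lambda2 (p * q) = L2 (p * q) := rfl
    have h2 : (p * q).primeFactors = {p, q} := by
      rw [Nat.primeFactors_mul hp.ne_zero hq.ne_zero, hp.primeFactors, hq.primeFactors]
      rfl
    rw [h1, L2_two_pf (Nat.mul_pos hp.pos hq.pos) hpq h2]
  · have h1 : Lambda2 m = L2 m := rfl
    rcases Nat.eq_zero_or_pos m with rfl | h0
    · simp at hm
    · rw [h1, L2_three_pf h0 hm]
  · obtain ⟨k, rfl⟩ : ∃ j, k = j + 1 := ⟨k - 1, by omega⟩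
    obtain ⟨δ, hδ1, hδ2, ξ, hξ, hξ8, hξε, κ, hκ, hκ1, B, hB⟩ := genF k U ε hε
    obtain ⟨N₁, hN₁⟩ := habs δ B hδ2
    obtain ⟨N₀, hN₀⟩ := eventually_atTop.1 hB
    refine ⟨(1 + δ) / 2, ξ, κ, by linarith, by linarith, hξ, hξε, hκ, max (max N₀ N₁) 1, fun N hN f hf A hA => ?_⟩
    have h1 := hN₀ N ((le_max_left _ _).trans ((le_max_left _ _).trans hN))
    have h2 := hN₁ N ((le_max_right _ _).trans ((le_max_left _ _).trans hN))
    have hN1 : 1 ≤ N := (le_max_right _ _).trans hN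
    rw [Nat.add_sub_cancel]
    refine (h1 f hf A hA _ fun E hE => ?_).trans (h2 _ (Nat.cast_nonneg _))
    rw [mem_filter, tupleSum_eq f E ξ N hN1, roughSum_eq, roughSum_eq, eulerProd_eq] at hE
    exact hE
  · obtain ⟨k, rfl⟩ : ∃ j, k = j + 1 := ⟨k - 1, by omega⟩
    obtain ⟨δ, hδ1, hδ2, ξ, hξ, hξ8, hξε, B, hB⟩ := Pool.Agent.H528.Mass.mass_T k ε hε
    obtain ⟨N₁, hN₁⟩ := habs1 δ B hδ2
    obtain ⟨N₀, hN₀⟩ := eventually_atTop.1 hB
    refine ⟨(1 + δ) / 2, ξ, by linarith, by linarith, hξ, hξε, max (max N₀ N₁) 1, fun N hN A hA => ?_⟩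
    have h1 := hN₀ N ((le_max_left _ _).trans ((le_max_left _ _).trans hN))
    have h2 := hN₁ N ((le_max_right _ _).trans ((le_max_left _ _).trans hN))
    have hN1 : 1 ≤ N := (le_max_right _ _).trans hN
    rw [Nat.add_sub_cancel]
    refine (h1 A hA _ fun E hE => ?_).trans (h2 _ (Nat.cast_nonneg _))
    rw [mem_filter, tupleSum_eq _ E ξ N hN1] at hE
    exact hE
  · obtain ⟨k, rfl⟩ : ∃ j, k = j + 1 := ⟨k - 1, by omega⟩
    obtain ⟨δ, hδ1, hδ2, ξ, hξ, hξ8, hξε, B₁, hB⟩ := lioT k (s + 1) B ε hε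
    obtain ⟨N₁, hN₁⟩ := habs δ B₁ hδ2
    obtain ⟨N₀, hN₀⟩ := eventually_atTop.1 hB
    refine ⟨(1 + δ) / 2, ξ, by linarith, by linarith, hξ, hξε, max (max N₀ N₁) 1,
      fun N hN a b ha haN hbN D hDs hD A hA => ?_⟩
    have h1 := hN₀ N ((le_max_left _ _).trans ((le_max_left _ _).trans hN))
    have h2 := hN₁ N ((le_max_right _ _).trans ((le_max_left _ _).trans hN))
    have hN1 : 1 ≤ N := (le_max_right _ _).trans hN
    rw [Nat.add_sub_cancel]
    have hcop : ∀ d : ℤ, IsCoprime (a : ℤ) d → ∀ p : ℕ, p.Prime → p ∣ a → ¬ (p : ℤ) ∣ d := by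
      intro d hd p hp hpa hpd
      have h3 : (p : ℤ) ∣ (a : ℤ) := Int.natCast_dvd_natCast.2 hpa
      have h4 := hd.isUnit_of_dvd' h3 hpd
      rw [Int.ofNat_isUnit, Nat.isUnit_iff] at h4
      exact hp.one_lt.ne' h4
    have hD' : ∀ d ∈ D, (∀ p : ℕ, p.Prime → p ∣ a → ¬ (p : ℤ) ∣ d) ∧ |(d : ℝ)| ≤ N * Real.log N ^ B :=
      fun d hd => ⟨hcop d (hD d hd).1, (hD d hd).2⟩
    constructor
    · refine (h1 a b ha haN hbN D (by omega) hD' A hA _ fun E hE => ?_).trans (h2 _ (Nat.cast_nonneg _))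
      rw [mem_filter, tupleSum_eq _ E ξ N hN1] at hE
      simp only [liouville_eq, moebius_eq] at hE
      exact hE
    · intro hab
      have hDi : (insert b D).card ≤ s + 1 := (card_insert_le _ _).trans (by omega)
      have hDb : ∀ d ∈ insert b D, (∀ p : ℕ, p.Prime → p ∣ a → ¬ (p : ℤ) ∣ d) ∧ |(d : ℝ)| ≤ N * Real.log N ^ B := by
        intro d hd
        rw [mem_insert] at hd
        rcases hd with rfl | hd
        · exact ⟨hcop d hab, hbN⟩
        · exact hD' d hd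
      refine (h1 a b ha haN hbN (insert b D) hDi hDb A hA _ fun E hE => ?_).trans (h2 _ (Nat.cast_nonneg _))
      rw [mem_filter, tupleSum_eq _ E ξ N hN1] at hE
      simp only [moebius_eq, mz_prod] at hE
      exact hE

end Pool.Agent.Results.MP_1039f5_nt.LiouvilleInSparseTuples
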