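import Pool.Agent.H559.UH.Lb
import Pool.Agent.H559.UH.Tl
import Pool.Agent.H559.UH.Dn
import Pool.Agent.H559.UH.En
import Pool.Agent.H559.UH.Mn
import Pool.Agent.H559.UH.Fin
import Pool.Agent.H559.HY.CutW
import Pool.Agent.H559.HY.FinBH
import Pool.Agent.H559.BS.Main

set_option autoImplicit false

/-!
# The Hardy-Littlewood asymptotic uniformly in the tuple, almost surely in the random sieve model

For every prime `q` a residue class `a q` modulo `q` is drawn uniformly and independently. The random primes are the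
integers `v ≥ 3` which are, for all primes `q ≤ z v`, not in the class `0` modulo `q` if `q ≤ (log v) ^ c`, and not in the
class `a q` modulo `q` if `q > (log v) ^ c`. This is the model of Banks, Ford and Tao (*Large prime gaps and
probabilistic models*) in which the small primes sieve out the class `0` as they do for the true primes. The sieving
limit `z` is any nondecreasing function for which `∏_{q ≤ z v} (1 - 1 / q)` is asymptotic to `1 / log v`; the choice `zBFT`
of Banks, Ford and Tao is one of them. The exponent `c` is any number larger than `1`.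

The theorem: almost surely, for all `k` and `δ > 0`, uniformly for all admissible sets `H` of `k` numbers at most `x ^ (1 - δ)`, the
number of the random primes `p ≤ x` such that `p - h` is a random prime for all `h ∈ H` is asymptotic to
`𝔖(H) x / log ^ k x` (`H = {0, d', d}` is the question); and, for all `A`, uniformly for all the admissible sets `H` of `k` numbers
at most `x ^ A` and all the intervals `(X, X + x]` with `X ≤ x ^ A`, the number of `n ∈ (X, X + x]` such that `n + h` is a random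
prime for all `h ∈ H` is asymptotic to `𝔖(H) x / ∏ log (X + x + h)`.
-/

open MeasureTheory ProbabilityTheory Filter Topology

namespace Pool.Agent.Results.MP_1039f5_nt.UniformTriplesRandomSieve

/-- `V m = ∏ (1 - 1 / q)` over the primes `q ≤ m` -/
noncomputable def V (m : ℕ) : ℝ := ∏ q ∈ (Finset.range (m + 1)).filter Nat.Prime, (1 - 1 / (q : ℝ))

/-- the classes `a q` are independent, and `a q` is uniform on `0, …, q - 1` for every prime `q` -/
structure Model {Ω : Type} [MeasurableSpace Ω] (P : Measure Ω) (a : ℕ → Ω → ℕ) : Prop where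
  measurable : ∀ q, Measurable (a q)
  independent : iIndepFun a P
  uniform : ∀ q, q.Prime → ∀ r < q, P.real {ω | a q ω = r} = 1 / q

/-- the sieving limit of Banks, Ford and Tao: the largest `m` with `∏_{q ≤ m} (1 - 1 / q)⁻¹ ≤ log n` -/
noncomputable def zBFT (n : ℕ) : ℕ := sSup {m : ℕ | (V m)⁻¹ ≤ Real.log n}

/-- the admissible sieving limits: the density of the random primes near `v` is asymptotic to `1 / log v` -/
def Limit (z : ℕ → ℕ) : Prop := Monotone z ∧ Tendsto (fun v => V (z v) * Real.log v) atTop (𝓝 1)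

open Classical in
/-- the set of the random primes of a sample -/
def R {Ω : Type} (z : ℕ → ℕ) (c : ℝ) (a : ℕ → Ω → ℕ) (ω : Ω) : Set ℕ :=
  {v | 3 ≤ v ∧ ∀ q ≤ z v, q.Prime → v % q ≠ if (q : ℝ) ≤ Real.log v ^ c then 0 else a q ω}

/-- the number of the residue classes modulo `p` containing an element of `H` -/
def nu (H : Finset ℕ) (p : ℕ) : ℕ := (H.image (· % p)).card

/-- the partial products of the singular series -/
noncomputable def partialS (H : Finset ℕ) (N : ℕ) : ℝ :=
  ∏ p ∈ (Finset.range (N + 1)).filter Nat.Prime, (1 - (nu H p : ℝ) / p) / (1 - 1 / (p : ℝ)) ^ H.card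

/-- the admissible sets -/
def Admissible (H : Finset ℕ) : Prop := ∀ p : ℕ, p.Prime → nu H p < p

/-- the number of the `p ≤ x` with `p - h ∈ A` for all `h ∈ H` -/
noncomputable def piH (A : Set ℕ) (H : Finset ℕ) (x : ℕ) : ℕ := {p : ℕ | p ≤ x ∧ ∀ h ∈ H, h < p ∧ p - h ∈ A}.ncard

/-- the number of the `n ∈ (X, X + y]` with `n + h ∈ A` for all `h ∈ H` -/
noncomputable def count (A : Set ℕ) (H : Finset ℕ) (X y : ℕ) : ℕ := {n : ℕ | X < n ∧ n ≤ X + y ∧ ∀ h ∈ H, n + h ∈ A}.ncard

theorem result :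
    (∃ (Ω : Type) (_ : MeasurableSpace Ω) (P : Measure Ω) (a : ℕ → Ω → ℕ), Model P a) ∧ Limit zBFT ∧
    ∃ 𝔖 : Finset ℕ → ℝ, (∀ H, Tendsto (partialS H) atTop (𝓝 (𝔖 H)) ∧ (Admissible H → 0 < 𝔖 H)) ∧
      ∀ z : ℕ → ℕ, Limit z → ∀ c : ℝ, 1 < c →
        ∀ (Ω : Type) [MeasurableSpace Ω] (P : Measure Ω) (a : ℕ → Ω → ℕ), Model P a →
          ∀ᵐ ω ∂P,
            (∀ (k : ℕ) (δ ε : ℝ), 0 < δ → 0 < ε → ∀ᶠ x : ℕ in atTop, ∀ H : Finset ℕ, H.card = k → H.Nonempty →
              Admissible H → (∀ h ∈ H, (h : ℝ) ≤ (x : ℝ) ^ (1 - δ)) →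
                |(piH (R z c a ω) H x : ℝ) * Real.log x ^ k / (𝔖 H * x) - 1| ≤ ε) ∧
            (∀ (k A : ℕ) (ε : ℝ), 0 < ε → ∀ᶠ x : ℕ in atTop, ∀ X ≤ x ^ A, ∀ H : Finset ℕ, H.card = k →
              Admissible H → (∀ h ∈ H, h ≤ x ^ A) →
                |(count (R z c a ω) H X x : ℝ) * (∏ h ∈ H, Real.log ((X + x + h : ℕ) : ℝ)) / (𝔖 H * x) - 1| ≤ ε) := by
  classical
  have hspec := fun H : Finset ℕ => (Pool.Agent.H559.SI.pS_conv H).choose_spec
  set 𝔖 : Finset ℕ → ℝ := fun H => (Pool.Agent.H559.SI.pS_conv H).choose with h𝔖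
  refine ⟨?_, ⟨Pool.Agent.T2H32.BF.z0_mono, Pool.Agent.T2H32.BF.z0_lim⟩, 𝔖, fun H => ⟨(hspec H).1, (hspec H).2⟩, ?_⟩
  · obtain ⟨Ω, i, P, a, h⟩ := Pool.Agent.T2H32.BF.exists_model
    exact ⟨Ω, i, P, a, h.measurable, h.independent, h.uniform⟩
  · intro z hz c hc Ω _ P a hmod
    have h : Pool.Agent.T2H32.BF.Model P a := ⟨hmod.measurable, hmod.independent, hmod.uniform⟩
    have hcut := Pool.Agent.H559.HY.cut_WW c hc
    filter_upwards [Pool.Agent.H559.PV.ae_OK h z (Pool.Agent.H559.HY.WW c) hz hcut] with ω hω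
    have e : R z c a ω = Pool.Agent.H559.HY.RS z (Pool.Agent.H559.HY.WW c) (fun p => a p ω) := by
      ext v
      simp only [R, Pool.Agent.H559.HY.RS, Set.mem_ofPred_eq]
      refine and_congr_right fun hv => ?_
      refine forall_congr' fun q => forall_congr' fun _ => forall_congr' fun _ => ?_
      have h0 : 0 ≤ Real.log v ^ c := Real.rpow_nonneg (Real.log_nonneg (by
        have : 1 ≤ v := by omega
        exact_mod_cast this)) c
      have h1 : (q : ℝ) ≤ Real.log v ^ c ↔ q ≤ Pool.Agent.H559.HY.WW c v := (Nat.le_floor_iff h0).symm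
      by_cases h2 : (q : ℝ) ≤ Real.log v ^ c
      · rw [if_pos h2, if_pos (h1.1 h2)]
      · rw [if_neg h2, if_neg (fun h3 => h2 (h1.2 h3))]
    rw [e]
    have hMF := Pool.Agent.H559.UH.mf (Pool.Agent.H559.UH.t_mn Pool.Agent.H559.UH.t_lb Pool.Agent.H559.UH.t_tl
      Pool.Agent.H559.UH.t_dn Pool.Agent.H559.UH.t_en) z _ _ hz hcut hω
    constructor
    · intro k δ ε hδ hε
      filter_upwards [Pool.Agent.H559.UH.form _ hMF k δ ε hδ hε] with x hx H hk hne hadm hle
      exact hx H hk hne hle hadm (𝔖 H) (hspec H).1 ((hspec H).2 hadm)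
    · intro k A ε hε
      filter_upwards [hMF k A ε hε, eventually_ge_atTop 1] with x hx hx1 X hX H hk hadm hle
      have h1 := hx X hX H hk hle hadm (𝔖 H) (hspec H).1
      have hx0 : (0 : ℝ) < x := by exact_mod_cast hx1
      have h2 : 0 < 𝔖 H * x := mul_pos ((hspec H).2 hadm) hx0
      have h3 : (count (Pool.Agent.H559.HY.RS z (Pool.Agent.H559.HY.WW c) (fun p => a p ω)) H X x : ℝ) *
          (∏ h ∈ H, Real.log ((X + x + h : ℕ) : ℝ)) / (𝔖 H * x) - 1 =
          ((Pool.Agent.H559.SI.cH (Pool.Agent.H559.HY.RS z (Pool.Agent.H559.HY.WW c) (fun p => a p ω)) H X x : ℝ) *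
          (∏ h ∈ H, Real.log ((X + x + h : ℕ) : ℝ)) - 𝔖 H * x) / (𝔖 H * x) := by
        rw [sub_div, div_self h2.ne']
        rfl
      rw [h3, abs_div, abs_of_pos h2, div_le_iff₀ h2]
      exact h1

end Pool.Agent.Results.MP_1039f5_nt.UniformTriplesRandomSieve
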